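import Mathlib
import Pool.Agent.Y734.M.StmsN

/-!
# Project Y734/M: the norms of the determinants of five vectors satisfy the quintic equation
(helper349)
-/

set_option autoImplicit false

namespace Pool.Agent.Y734.M.G5N
open Pool.Agent.Y734.M

theorem g5_eq {R : Type} [CommRing R] (u : Fin 5 → Fin 5 → R) :
    G5 u = u 0 1 * u 1 2 * u 2 3 * u 3 4 * u 0 4 + u 0 1 * u 1 2 * u 2 4 * u 3 4 * u 0 3
      + u 0 1 * u 1 3 * u 2 3 * u 2 4 * u 0 4 + u 0 1 * u 1 3 * u 3 4 * u 2 4 * u 0 2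
      + u 0 1 * u 1 4 * u 2 4 * u 2 3 * u 0 3 + u 0 1 * u 1 4 * u 3 4 * u 2 3 * u 0 2
      + u 0 2 * u 1 2 * u 1 3 * u 3 4 * u 0 4 + u 0 2 * u 1 2 * u 1 4 * u 3 4 * u 0 3
      + u 0 2 * u 2 3 * u 1 3 * u 1 4 * u 0 4 + u 0 2 * u 2 4 * u 1 4 * u 1 3 * u 0 3
      + u 0 3 * u 1 3 * u 1 2 * u 2 4 * u 0 4 + u 0 3 * u 2 3 * u 1 2 * u 1 4 * u 0 4
      - u 0 1 * u 0 1 * u 2 3 * u 2 4 * u 3 4 - u 0 2 * u 0 2 * u 1 3 * u 1 4 * u 3 4
      - u 0 3 * u 0 3 * u 1 2 * u 1 4 * u 2 4 - u 0 4 * u 0 4 * u 1 2 * u 1 3 * u 2 3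
      - u 1 2 * u 1 2 * u 0 3 * u 0 4 * u 3 4 - u 1 3 * u 1 3 * u 0 2 * u 0 4 * u 2 4
      - u 1 4 * u 1 4 * u 0 2 * u 0 3 * u 2 3 - u 2 3 * u 2 3 * u 0 1 * u 0 4 * u 1 4
      - u 2 4 * u 2 4 * u 0 1 * u 0 3 * u 1 3 - u 3 4 * u 3 4 * u 0 1 * u 0 2 * u 1 2 := by
  have h : ∀ t : Fin 22, mo u t = u (tm t 0).1 (tm t 0).2 * u (tm t 1).1 (tm t 1).2 *
      u (tm t 2).1 (tm t 2).2 * u (tm t 3).1 (tm t 3).2 * u (tm t 4).1 (tm t 4).2 := by
    intro t
    unfold mo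
    rw [Fin.prod_univ_five]
  unfold G5
  simp only [h]
  rw [show (∑ t : Fin 22, (if (t : ℕ) < 12 then (1 : R) else -1) *
      (u (tm t 0).1 (tm t 0).2 * u (tm t 1).1 (tm t 1).2 *
      u (tm t 2).1 (tm t 2).2 * u (tm t 3).1 (tm t 3).2 * u (tm t 4).1 (tm t 4).2)) =
      ∑ t : Fin (12 + 10), (if (t : ℕ) < 12 then (1 : R) else -1) *
      (u (tm t 0).1 (tm t 0).2 * u (tm t 1).1 (tm t 1).2 *
      u (tm t 2).1 (tm t 2).2 * u (tm t 3).1 (tm t 3).2 * u (tm t 4).1 (tm t 4).2) from rfl]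
  simp only [Fin.sum_univ_succ, Fin.sum_univ_zero]
  simp [tm]
  ring


theorem det_g5 {R : Type} [CommRing R] (u : Fin 5 → Fin 5 → R) (h : Sy u) (h0 : ∀ i, u i i = 0) :
    Matrix.det (Matrix.of u) = 2 * G5 u := by
  rw [g5_eq]
  simp only [Matrix.det_succ_row_zero, Fin.sum_univ_succ, Fin.sum_univ_zero, Matrix.submatrix_apply,
    Matrix.submatrix_submatrix, Matrix.of_apply, Matrix.det_fin_zero, Function.comp]
  simp [Fin.succAbove, h0, h 1 0, h 2 0, h 3 0, h 4 0, h 2 1, h 3 1, h 4 1, h 3 2, h 4 2, h 4 3]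
  ring

theorem g5_scale {R : Type} [CommRing R] (u : Fin 5 → Fin 5 → R) (t : Fin 5 → R) (c : R) :
    G5 (fun i j => c * t i * t j * u i j) = c ^ 5 * (∏ i, t i) ^ 2 * G5 u := by
  rw [g5_eq, g5_eq, Fin.prod_univ_five]
  ring

theorem g5_map {R R' : Type} [CommRing R] [CommRing R'] (φ : R →+* R') (u : Fin 5 → Fin 5 → R) :
    φ (G5 u) = G5 (fun i j => φ (u i j)) := by
  rw [g5_eq, g5_eq]
  simp only [map_add, map_sub, map_mul]


/-- the quintic equation for products of two determinants -/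
theorem g5_two {K : Type} [Field K] [CharZero K] (x y x' y' : Fin 5 → K) :
    G5 (fun i j => (x i * y j - y i * x j) * (x' i * y' j - y' i * x' j)) = 0 := by
  have h1 := det_g5 (fun i j => (x i * y j - y i * x j) * (x' i * y' j - y' i * x' j))
    (fun i j => by ring) (fun i => by ring)
  have h2 : Matrix.of (fun i j => (x i * y j - y i * x j) * (x' i * y' j - y' i * x' j)) =
      (Matrix.of fun i => ![x i * x' i, -(x i * y' i), -(y i * x' i), y i * y' i, 0]) *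
        (Matrix.of ![fun j => y j * y' j, fun j => y j * x' j, fun j => x j * y' j,
          fun j => x j * x' j, fun _ => (0 : K)]) := by
    ext i j
    rw [Matrix.mul_apply, Fin.sum_univ_five]
    simp only [Matrix.of_apply, Matrix.cons_val_zero, Matrix.cons_val_one, Matrix.cons_val]
    ring
  have h3 : (Matrix.of fun i : Fin 5 =>
      ![x i * x' i, -(x i * y' i), -(y i * x' i), y i * y' i, 0]).det = 0 := by
    apply Matrix.det_eq_zero_of_column_eq_zero 4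
    intro i
    simp
  rw [h2, Matrix.det_mul, h3, zero_mul] at h1
  have h4 : (2 : K) ≠ 0 := two_ne_zero
  exact (mul_eq_zero.1 h1.symm).resolve_left h4

theorem g5n : G5nStmt := by
  intro L _ _ hL P
  have hcard : Fintype.card (L →ₐ[ℚ] ℂ) = 2 := by rw [AlgHom.card ℚ L ℂ, hL]
  let e : Fin 2 ≃ (L →ₐ[ℚ] ℂ) := (Fintype.equivFinOfCardEq hcard).symm
  have hn : ∀ z : L, algebraMap ℚ ℂ (Algebra.norm ℚ z) = e 0 z * e 1 z := by
    intro z
    rw [Algebra.norm_eq_prod_embeddings ℚ ℂ z, ← Equiv.prod_comp e, Fin.prod_univ_two]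
  have h1 : algebraMap ℚ ℂ (G5 (fun i j => Algebra.norm ℚ (dt (P i) (P j)))) = 0 := by
    rw [g5_map]
    have h2 : (fun i j => algebraMap ℚ ℂ (Algebra.norm ℚ (dt (P i) (P j)))) =
        fun i j => (e 0 (P i 0) * e 0 (P j 1) - e 0 (P i 1) * e 0 (P j 0)) *
          (e 1 (P i 0) * e 1 (P j 1) - e 1 (P i 1) * e 1 (P j 0)) := by
      funext i j
      rw [hn]
      unfold dt
      simp only [map_sub, map_mul]
    rw [h2]
    exact g5_two (fun i => e 0 (P i 0)) (fun i => e 0 (P i 1)) (fun i => e 1 (P i 0))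
      (fun i => e 1 (P i 1))
  exact (map_eq_zero (algebraMap ℚ ℂ)).1 h1

end Pool.Agent.Y734.M.G5N
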